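import Pool.Agent.Run7.h630.QC.Iface
import Pool.Agent.Run7.h771.MQ.E1
import Pool.Agent.Run7.h4.YM.Vac

/-!
# The third moment of the energy (piece Q12)
-/

open MeasureTheory Matrix Filter Topology
open scoped Matrix.Norms.Frobenius ComplexConjugate

namespace Run7.h863.QC

open Run7.h4.YM Run7.h630.QC
open Run7.h630.MQ hiding om W zt

set_option linter.unusedSectionVars false
set_option maxHeartbeats 400000

noncomputable section

/-! ### real numbers -/

theorem cube_le {x M : ℝ} (hx : 0 ≤ x) (hM : 0 ≤ M) :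
    x ^ 3 * Real.exp (-x) ≤
      64 * M ^ 3 * Real.exp (-x) + 384 * Real.exp (-M) * Real.exp (-(x / 2)) := by
  by_cases h : x ≤ 4 * M
  · have h1 : x ^ 3 ≤ (4 * M) ^ 3 := pow_le_pow_left₀ hx h 3
    have h2 : x ^ 3 * Real.exp (-x) ≤ (4 * M) ^ 3 * Real.exp (-x) :=
      mul_le_mul_of_nonneg_right h1 (Real.exp_pos _).le
    have h3 : 0 ≤ 384 * Real.exp (-M) * Real.exp (-(x / 2)) := by positivity
    have h4 : (4 * M) ^ 3 * Real.exp (-x) = 64 * M ^ 3 * Real.exp (-x) := by ring
    linarith
  · push Not at h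
    have h1 : (x / 4) ^ 3 / (Nat.factorial 3 : ℕ) ≤ Real.exp (x / 4) :=
      Real.pow_div_factorial_le_exp (x / 4) (by positivity) 3
    have h2 : x ^ 3 ≤ 384 * Real.exp (x / 4) := by
      have h3 : ((Nat.factorial 3 : ℕ) : ℝ) = 6 := by norm_num [Nat.factorial]
      rw [h3] at h1
      nlinarith
    have h3 : Real.exp (x / 4) * Real.exp (-x) = Real.exp (-(x / 4)) * Real.exp (-(x / 2)) := by
      rw [← Real.exp_add, ← Real.exp_add]
      congr 1
      ring
    have h4 : Real.exp (-(x / 4)) ≤ Real.exp (-M) := Real.exp_le_exp.2 (by linarith)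
    have h5 : 0 ≤ 64 * M ^ 3 * Real.exp (-x) := by positivity
    calc x ^ 3 * Real.exp (-x) ≤ 384 * Real.exp (x / 4) * Real.exp (-x) :=
          mul_le_mul_of_nonneg_right h2 (Real.exp_pos _).le
      _ = 384 * (Real.exp (-(x / 4)) * Real.exp (-(x / 2))) := by rw [mul_assoc, h3]
      _ ≤ 384 * (Real.exp (-M) * Real.exp (-(x / 2))) :=
          mul_le_mul_of_nonneg_left (mul_le_mul_of_nonneg_right h4 (Real.exp_pos _).le)
            (by norm_num)
      _ ≤ _ := by linarith

section

variable {N n L l : ℕ} [NeZero N] [NeZero n] [NeZero L] [NeZero l]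

theorem Sq_zero (k : ℕ) (U : Link n L l → SU N) : Sq k (fun _ => 0) U = action k U := by
  unfold Sq action
  refine Finset.sum_congr rfl fun x _ => Finset.sum_congr rfl fun i _ =>
    Finset.sum_congr rfl fun j hj => ?_
  have hij : i < j := Finset.mem_Ioi.1 hj
  have e : zz N k (fun _ => 0) x i j = twist N k x i j := by
    unfold zz z0 twist
    rw [if_pos hij, ZMod.val_zero, pow_zero]
    by_cases h : i = 0 ∧ j = 1
    · rw [if_pos h, if_neg (by rintro ⟨h1, -⟩; rw [h.1] at h1; exact absurd h1 (by decide))]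
    · rw [if_neg h]
      rfl
  rw [e]

theorem om_norm' (j : ℕ) : ‖Run7.h630.MQ.om N j‖ = 1 := by
  unfold Run7.h630.MQ.om
  have : 2 * (Real.pi : ℂ) * Complex.I * ((j : ℂ) / N) =
      ((2 * Real.pi * (j / N) : ℝ) : ℂ) * Complex.I := by push_cast; ring
  rw [this]
  exact Complex.norm_exp_ofReal_mul_I _

theorem zz_norm' (k : ℕ) (q : ZMod n × ZMod L → ZMod N) (x : Site n L l) (i j : Fin 4) :
    ‖zz N k q x i j‖ = 1 := by
  have h0 : ∀ i j : Fin 4, ‖z0 N k q x i j‖ = 1 := by
    intro i j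
    unfold z0
    split_ifs
    · rw [norm_pow, om_norm', one_pow]
    · exact om_norm' k
    · exact norm_one
  unfold zz
  split_ifs
  · exact h0 i j
  · rw [Complex.norm_conj]
    exact h0 j i

theorem tr_norm_le (g : SU N) : ‖trace g.1‖ ≤ N := by
  unfold trace
  refine (norm_sum_le _ _).trans ?_
  refine (Finset.sum_le_sum fun i _ => entry_le g i i).trans (le_of_eq ?_)
  simp

theorem Sq_nonneg (k : ℕ) (q : ZMod n × ZMod L → ZMod N) (U : Link n L l → SU N) :
    0 ≤ Sq k q U := by
  unfold Sq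
  refine Finset.sum_nonneg fun x _ => Finset.sum_nonneg fun i _ => Finset.sum_nonneg fun j _ => ?_
  have h1 : (zz N k q x i j * trace (plaq U x i j).1).re ≤ N := by
    refine (Complex.re_le_norm _).trans ?_
    rw [norm_mul, zz_norm', one_mul]
    exact tr_norm_le _
  linarith

theorem Sq_cont (k : ℕ) (q : ZMod n × ZMod L → ZMod N) :
    Continuous fun U : Link n L l → SU N => Sq k q U := by
  unfold Sq
  refine continuous_finsetSum _ fun x _ => continuous_finsetSum _ fun i _ =>
    continuous_finsetSum _ fun j _ => continuous_const.sub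
      (Complex.continuous_re.comp (continuous_const.mul ?_))
  have h : ∀ e : Link n L l, Continuous fun U : Link n L l → SU N => U e := fun e =>
    continuous_apply e
  exact continuous_tr.comp ((((h (i, x)).mul (h (j, x + dir i))).mul
    (h (i, x + dir j)).inv).mul (h (j, x)).inv)

end

section

variable {N : ℕ} [NeZero N] [MeasurableSpace (SU N)] [BorelSpace (SU N)] (μ : Measure (SU N))
  [IsProbabilityMeasure μ] [μ.IsHaarMeasure]

/-- lower bound of the partition function -/
theorem log_lower {k : ℕ} (hk : Nat.Coprime k N) {c : ℝ} (hc : 0 < c)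
    (hball : ∀ η : ℝ, 0 < η → η ≤ 1 → c * η ^ (2 * N ^ 2) ≤ μ.real {g : SU N | ‖g.1 - 1‖ < η})
    (m m' l : ℕ) [NeZero m] [NeZero m'] [NeZero l] {β : ℝ} (hβ : 1 ≤ β) :
    -Real.log (ZZ μ m m' l k β) ≤
      2 * m' * (2 * m) * (l ^ 2 * (4 * (|Real.log c| + N ^ 2 * Real.log β) + 48)) := by
  have hζ := om_prim (N := N) hk
  have hN : (1 : ℝ) ≤ N := by exact_mod_cast NeZero.one_le (n := N)
  have hβ0 : 0 < β := by linarith
  obtain ⟨η, hη⟩ : ∃ η : ℝ, η = (Real.sqrt β)⁻¹ := ⟨_, rfl⟩
  have hs : 1 ≤ Real.sqrt β := by rw [Real.one_le_sqrt]; exact hβ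
  have hη0 : 0 < η := by rw [hη]; positivity
  have hη1 : η ≤ 1 := by rw [hη]; exact inv_le_one_of_one_le₀ hs
  have hη2 : β * η ^ 2 = 1 := by
    rw [hη, inv_pow, Real.sq_sqrt hβ0.le]; field_simp
  have hlη : Real.log η = -(Real.log β / 2) := by
    rw [hη, Real.log_inv, Real.log_sqrt hβ0.le]
  have hb : c * η ^ (2 * N ^ 2) ≤ ball μ η := by
    have := hball η hη0 hη1
    unfold ball
    have e : {g : SU N | dd g 1 < η} = {g : SU N | ‖g.1 - 1‖ < η} := by
      ext g
      simp only [Set.mem_ofPred_eq]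
      rw [dd_eq_norm, coe_one']
    rw [e]
    exact this
  have hbp : 0 < c * η ^ (2 * N ^ 2) := by positivity
  have hbp' := lt_of_lt_of_le hbp hb
  have h3 := ZZ_lower (l := l) hζ μ (m := m) (m' := m') (η := η) hβ0.le
  have h4 := Real.log_le_log (by positivity) h3
  rw [Real.log_pow, Real.log_mul (by positivity) (Real.exp_pos _).ne', Real.log_pow,
    Real.log_exp] at h4
  have h5 : Real.log c - N ^ 2 * Real.log β ≤ Real.log (ball μ η) := by
    have := Real.log_le_log hbp hb
    rw [Real.log_mul hc.ne' (by positivity), Real.log_pow, hlη] at this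
    refine le_trans (le_of_eq ?_) this
    push_cast
    ring
  have h6 : β * (48 * (l : ℝ) ^ 2 * η ^ 2) = 48 * l ^ 2 := by
    have : β * (48 * (l : ℝ) ^ 2 * η ^ 2) = 48 * l ^ 2 * (β * η ^ 2) := by ring
    rw [this, hη2, mul_one]
  rw [h6] at h4
  push_cast at h4
  have h8 : -(4 * (l : ℝ) ^ 2 * Real.log (ball μ η) + -(48 * l ^ 2)) ≤
      l ^ 2 * (4 * (|Real.log c| + N ^ 2 * Real.log β) + 48) := by
    have h9 := neg_abs_le (Real.log c)
    have h10 : -(|Real.log c| + N ^ 2 * Real.log β) ≤ Real.log (ball μ η) := by linarith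
    have h11 := mul_le_mul_of_nonneg_left h10 (by positivity : (0 : ℝ) ≤ 4 * (l : ℝ) ^ 2)
    linarith
  have h12 := mul_le_mul_of_nonneg_left h8 (by positivity : (0 : ℝ) ≤ 2 * m' * (2 * m))
  linarith

theorem t_Q12 : S_Q12 := by
  intro N k _ hk _ _ μ _ _
  have hi := inv_inv' μ
  obtain ⟨c, hc, hball⟩ := Run7.h771.MQ.t_E1 N μ
  have hN1 : (1 : ℝ) ≤ N := by exact_mod_cast NeZero.one_le (n := N)
  have hlogN : 0 ≤ Real.log N := Real.log_nonneg hN1
  set C1 : ℝ := Real.log N + 4 * (|Real.log c| + N ^ 2) + 48 with hC1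
  have hC1p : 0 < C1 := by positivity
  refine ⟨64 * C1 ^ 3 + 384, by positivity, ?_⟩
  intro m m' l _ _ _ _ _ β hβ
  have hβ0 : 0 < β := by linarith
  have hlog : 0 ≤ Real.log β := Real.log_nonneg hβ
  have hl : (1 : ℝ) ≤ l := by exact_mod_cast NeZero.one_le (n := l)
  have hm : (1 : ℝ) ≤ m := by exact_mod_cast NeZero.one_le (n := m)
  have hm' : (1 : ℝ) ≤ m' := by exact_mod_cast NeZero.one_le (n := m')
  have hZ := ZZ_pos (N := N) (m := m) (m' := m') (l := l) μ k β
  have hlow := log_lower μ hk hc hball m m' l hβ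
  set B : ℝ := 2 * m' * (2 * m) * (l ^ 2 * (4 * (|Real.log c| + N ^ 2 * Real.log β) + 48)) with hB
  have hB0 : 0 ≤ B := by positivity
  have hZB : Real.exp (-B) ≤ ZZ μ m m' l k β := by
    rw [← Real.exp_log hZ]
    exact Real.exp_le_exp.2 (by linarith)
  set M : ℝ := 2 * m' * (2 * m) * Real.log N + B with hM
  have hM0 : 0 ≤ M := by positivity
  -- the partition functions
  have hcont : ∀ q : ZMod (2 * m) × ZMod (2 * m') → ZMod N,
      Continuous fun U : Link (2 * m) (2 * m') l → SU N => β * Sq k q U := fun q =>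
    continuous_const.mul (Sq_cont k q)
  have hpos : ∀ (q : ZMod (2 * m) × ZMod (2 * m') → ZMod N)
      (U : Link (2 * m) (2 * m') l → SU N), 0 ≤ β * Sq k q U := fun q U =>
    mul_nonneg hβ0.le (Sq_nonneg k q U)
  have hint : ∀ f : (Link (2 * m) (2 * m') l → SU N) → ℝ, Continuous f →
      Integrable f (Measure.pi fun _ : Link (2 * m) (2 * m') l => μ) := fun f hf =>
    (Bd.of_continuous hf).integrable
  have hZs : ZZ μ m m' l k β ≤ Zs μ (2 * m) (2 * m') l k β := by
    unfold Zs
    have e : ZZ μ m m' l k β = ∫ U, Real.exp (-(β * Sq k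
        (fun _ : ZMod (2 * m) × ZMod (2 * m') => (0 : ZMod N)) U))
        ∂(Measure.pi fun _ : Link (2 * m) (2 * m') l => μ) := by
      unfold ZZ II
      simp only [one_mul, Sq_zero]
    rw [e]
    exact Finset.single_le_sum (f := fun q : ZMod (2 * m) × ZMod (2 * m') → ZMod N =>
      ∫ U, Real.exp (-(β * Sq k q U)) ∂(Measure.pi fun _ : Link (2 * m) (2 * m') l => μ))
      (fun q _ => integral_nonneg fun U => (Real.exp_pos _).le) (Finset.mem_univ _)
  have hhalf : ∑ q : ZMod (2 * m) × ZMod (2 * m') → ZMod N,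
      ∫ U, Real.exp (-(β * Sq k q U / 2)) ∂(Measure.pi fun _ : Link (2 * m) (2 * m') l => μ) ≤
      Real.exp (2 * m' * (2 * m) * Real.log N) := by
    have h1 : ∀ q : ZMod (2 * m) × ZMod (2 * m') → ZMod N,
        ∫ U, Real.exp (-(β * Sq k q U / 2))
          ∂(Measure.pi fun _ : Link (2 * m) (2 * m') l => μ) ≤ 1 := by
      intro q
      have h2 : ∫ U, Real.exp (-(β * Sq k q U / 2))
          ∂(Measure.pi fun _ : Link (2 * m) (2 * m') l => μ) ≤
          ∫ _ : Link (2 * m) (2 * m') l → SU N, (1 : ℝ)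
            ∂(Measure.pi fun _ : Link (2 * m) (2 * m') l => μ) := by
        refine integral_mono (hint _ (Real.continuous_exp.comp ((hcont q).div_const 2).neg))
          (integrable_const _) fun U => ?_
        simp only
        rw [← Real.exp_zero]
        refine Real.exp_le_exp.2 ?_
        have := hpos q U
        linarith
      simpa using h2
    refine (Finset.sum_le_sum fun q _ => h1 q).trans (le_of_eq ?_)
    rw [Finset.sum_const, Finset.card_univ, Fintype.card_fun, Fintype.card_prod, ZMod.card,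
      ZMod.card, ZMod.card, nsmul_eq_mul, mul_one]
    rw [mul_comm _ (Real.log N), Real.exp_mul, Real.exp_log (by linarith)]
    rw [show (2 * (m' : ℝ) * (2 * m)) = ((2 * m * (2 * m') : ℕ) : ℝ) by push_cast; ring,
      Real.rpow_natCast]
    push_cast
    rfl
  have h1 : ∑ q : ZMod (2 * m) × ZMod (2 * m') → ZMod N,
      ∫ U, (β * Sq k q U) ^ 3 * Real.exp (-(β * Sq k q U))
        ∂(Measure.pi fun _ : Link (2 * m) (2 * m') l => μ) ≤
      64 * M ^ 3 * Zs μ (2 * m) (2 * m') l k β + 384 * Real.exp (-M) *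
        Real.exp (2 * m' * (2 * m) * Real.log N) := by
    have h2 : ∀ q : ZMod (2 * m) × ZMod (2 * m') → ZMod N,
        ∫ U, (β * Sq k q U) ^ 3 * Real.exp (-(β * Sq k q U))
          ∂(Measure.pi fun _ : Link (2 * m) (2 * m') l => μ) ≤
        64 * M ^ 3 * ∫ U, Real.exp (-(β * Sq k q U))
          ∂(Measure.pi fun _ : Link (2 * m) (2 * m') l => μ) +
        384 * Real.exp (-M) * ∫ U, Real.exp (-(β * Sq k q U / 2))
          ∂(Measure.pi fun _ : Link (2 * m) (2 * m') l => μ) := by
      intro q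
      have c1 : Continuous fun U : Link (2 * m) (2 * m') l → SU N =>
          Real.exp (-(β * Sq k q U)) := Real.continuous_exp.comp (hcont q).neg
      have c2 : Continuous fun U : Link (2 * m) (2 * m') l → SU N =>
          Real.exp (-(β * Sq k q U / 2)) := Real.continuous_exp.comp ((hcont q).div_const 2).neg
      have c3 : Continuous fun U : Link (2 * m) (2 * m') l → SU N =>
          (β * Sq k q U) ^ 3 * Real.exp (-(β * Sq k q U)) := ((hcont q).pow 3).mul c1
      have c4 : Continuous fun U : Link (2 * m) (2 * m') l → SU N =>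
          64 * M ^ 3 * Real.exp (-(β * Sq k q U)) := continuous_const.mul c1
      have c5 : Continuous fun U : Link (2 * m) (2 * m') l → SU N =>
          384 * Real.exp (-M) * Real.exp (-(β * Sq k q U / 2)) := continuous_const.mul c2
      rw [← integral_const_mul, ← integral_const_mul, ← integral_add (hint _ c4) (hint _ c5)]
      exact integral_mono (hint _ c3) ((hint _ c4).add (hint _ c5)) fun U =>
        cube_le (hpos q U) hM0
    refine (Finset.sum_le_sum fun q _ => h2 q).trans ?_
    rw [Finset.sum_add_distrib, ← Finset.mul_sum, ← Finset.mul_sum]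
    refine add_le_add (le_of_eq rfl) ?_
    exact mul_le_mul_of_nonneg_left hhalf (by positivity)
  have h2 : Real.exp (-M) * Real.exp (2 * m' * (2 * m) * Real.log N) = Real.exp (-B) := by
    rw [← Real.exp_add]
    congr 1
    rw [hM]
    ring
  have hZsp : 0 < Zs μ (2 * m) (2 * m') l k β := lt_of_lt_of_le hZ hZs
  set V : ℝ := vol (2 * m) (2 * m') l with hV
  have hVe : V = 2 * m' * (2 * m) * l ^ 2 := by
    rw [hV]
    unfold vol
    push_cast
    ring
  have hmm : (1 : ℝ) ≤ 2 * m' * (2 * m) := by nlinarith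
  have hl2 : (1 : ℝ) ≤ (l : ℝ) ^ 2 := one_le_pow₀ hl
  have hV1 : 1 ≤ V := by
    rw [hVe]
    exact one_le_mul_of_one_le_of_one_le hmm hl2
  have hT1 : 1 ≤ V * (1 + Real.log β) :=
    one_le_mul_of_one_le_of_one_le hV1 (by linarith)
  have hMle : M ≤ C1 * (V * (1 + Real.log β)) := by
    have a1 : 2 * m' * (2 * m) * Real.log N ≤ V * Real.log N := by
      refine mul_le_mul_of_nonneg_right ?_ hlogN
      rw [hVe]
      exact le_mul_of_one_le_right (by positivity) hl2
    have a2 : B = V * (4 * (|Real.log c| + N ^ 2 * Real.log β) + 48) := by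
      rw [hB, hVe]
      ring
    have a3 : V * Real.log N ≤ V * (1 + Real.log β) * Real.log N := by
      refine mul_le_mul_of_nonneg_right ?_ hlogN
      exact le_mul_of_one_le_right (by positivity) (by linarith)
    have a4 : V * (4 * (|Real.log c| + N ^ 2 * Real.log β) + 48) ≤
        V * ((1 + Real.log β) * (4 * (|Real.log c| + N ^ 2) + 48)) := by
      refine mul_le_mul_of_nonneg_left ?_ (by positivity)
      have b1 : 0 ≤ |Real.log c| * Real.log β := mul_nonneg (abs_nonneg _) hlog
      have b2 : (0 : ℝ) ≤ (N : ℝ) ^ 2 := by positivity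
      nlinarith
    calc M = 2 * m' * (2 * m) * Real.log N + B := hM
      _ ≤ V * (1 + Real.log β) * Real.log N +
          V * ((1 + Real.log β) * (4 * (|Real.log c| + N ^ 2) + 48)) := by
          rw [a2]; linarith
      _ = _ := by rw [hC1]; ring
  have hM3 : M ^ 3 ≤ C1 ^ 3 * (V * (1 + Real.log β)) ^ 3 := by
    rw [← mul_pow]
    exact pow_le_pow_left₀ hM0 hMle 3
  calc _ ≤ 64 * M ^ 3 * Zs μ (2 * m) (2 * m') l k β + 384 * Real.exp (-M) *
        Real.exp (2 * m' * (2 * m) * Real.log N) := h1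
    _ = 64 * M ^ 3 * Zs μ (2 * m) (2 * m') l k β + 384 * Real.exp (-B) := by
        rw [mul_assoc (384 : ℝ), h2]
    _ ≤ 64 * (C1 ^ 3 * (V * (1 + Real.log β)) ^ 3) * Zs μ (2 * m) (2 * m') l k β +
        384 * Zs μ (2 * m) (2 * m') l k β := by
        refine add_le_add (mul_le_mul_of_nonneg_right
          (mul_le_mul_of_nonneg_left hM3 (by norm_num)) hZsp.le) ?_
        exact mul_le_mul_of_nonneg_left (hZB.trans hZs) (by norm_num)
    _ ≤ 64 * (C1 ^ 3 * (V * (1 + Real.log β)) ^ 3) * Zs μ (2 * m) (2 * m') l k β +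
        384 * (V * (1 + Real.log β)) ^ 3 * Zs μ (2 * m) (2 * m') l k β := by
        refine add_le_add (le_of_eq rfl) (mul_le_mul_of_nonneg_right ?_ hZsp.le)
        have : (1 : ℝ) ≤ (V * (1 + Real.log β)) ^ 3 := one_le_pow₀ hT1
        linarith
    _ = _ := by ring

end

end

end Run7.h863.QC
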